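import Pool.Agent.Helper72.LS.ExtDef

/-!
LS-9: first consequences of extremality.
-/

namespace Pool.Agent.Helper7.LS

open Finset
open scoped Classical
open Pool.Agent.Helper72.LS

theorem phG_eq {V : Type} [Fintype V] (G : SimpleGraph V) (k j h : ℤ) :
    phG G k j h = phi k j h (Fintype.card V) (em G) (tm G) := rfl

theorem psG_eq {V : Type} [Fintype V] (G : SimpleGraph V) (k h : ℤ) :
    psG G k h = pos k h (Fintype.card V) (em G) := rfl

theorem phi_edge (k j h n m t a b : ℤ) :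
    phi k j h n (m + a) (t + b) = phi k j h n m t + (n - k - j - 1) * a - b := by
  unfold phi
  ring

theorem pos_edge (k h n m a : ℤ) : pos k h n (m + a) = pos k h n m + a := by
  unfold pos
  ring

theorem ext_H2 {k δ h P : ℤ} {V : Type} [Fintype V] {G : SimpleGraph V} (E : Ext k δ h P G)
    {u v : V} (huv : u ≠ v) (h0 : ¬ G.Adj u v) : cc G k δ u v ≤ 0 := by
  obtain ⟨Γ, he, ht⟩ := op_add_edge G h0 huv
  have hpos : psG Γ k h = psG G k h + 1 := by
    rw [psG_eq, psG_eq, he, pos_edge]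
  have hval : Valid k δ (psG Γ k h) := by
    refine ⟨E.hδ, ?_, fun _ => ?_⟩
    · rw [hpos]; linarith [E.hr]
    · rw [hpos]; have := E.hr'; omega
  have h1 := E.all V Γ h δ hval
  have h2 : phG Γ k δ h = P + cc G k δ u v := by
    rw [phG_eq, he, ht, phi_edge, ← phG_eq, E.val]
    unfold cc
    ring
  linarith

theorem del_facts {k δ h P : ℤ} {V : Type} [Fintype V] {G : SimpleGraph V} (E : Ext k δ h P G)
    {u v : V} (h0 : G.Adj u v) : ∃ Γ : SimpleGraph V, psG Γ k h = psG G k h - 1 ∧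
      phG Γ k δ h = P - cc G k δ u v := by
  obtain ⟨Γ, he, ht⟩ := op_del_edge G h0
  refine ⟨Γ, ?_, ?_⟩
  · rw [psG_eq, psG_eq, he, sub_eq_add_neg, pos_edge]
    ring
  · rw [phG_eq, he, ht, sub_eq_add_neg, sub_eq_add_neg (tm G), phi_edge, ← phG_eq, E.val]
    unfold cc
    ring

theorem ext_H1' {k δ h P : ℤ} {V : Type} [Fintype V] {G : SimpleGraph V} (E : Ext k δ h P G)
    (hb : Dj k δ - psG G k h < 0) {u v : V} (h0 : G.Adj u v) : 1 ≤ cc G k δ u v := by
  obtain ⟨Γ, hpos, hph⟩ := del_facts E h0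
  have hval : Valid k δ (psG Γ k h) := by
    refine ⟨E.hδ, ?_, fun _ => ?_⟩
    · rw [hpos]; omega
    · rw [hpos]; have := E.hr'; omega
  have h1 := E.left Γ h δ hval (by rw [hpos]; omega)
  linarith

theorem ext_H1 {k δ h P : ℤ} {V : Type} [Fintype V] {G : SimpleGraph V} (E : Ext k δ h P G)
    {u v : V} (h0 : G.Adj u v) : 0 ≤ cc G k δ u v := by
  rcases lt_or_ge (Dj k δ - psG G k h) 0 with hb | hb
  · linarith [ext_H1' E hb h0]
  · obtain ⟨Γ, hpos, hph⟩ := del_facts E h0
    have hr := E.hr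
    have hδ := E.hδ
    have hD := Dj_succ k (δ - 1)
    rw [show δ - 1 + 1 = δ by ring] at hD
    have hval : Valid k (δ - 1) (psG Γ k h) := by
      refine ⟨by linarith, ?_, fun _ => ?_⟩
      · rw [hpos]; linarith
      · rw [hpos, show δ - 1 + 1 = δ by ring]; linarith
    have h1 := E.left Γ h (δ - 1) hval (by rw [hpos]; omega)
    have h2 : phG Γ k (δ - 1) h = phG Γ k δ h + (psG Γ k h - Dj k δ) := by
      rw [phG_eq, phG_eq, psG_eq, phi_pred]
    rw [h2, hph, hpos] at h1
    linarith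

/-- deletion of a vertex -/
theorem ext_del {k δ h P : ℤ} {V : Type} [Fintype V] {G : SimpleGraph V} (E : Ext k δ h P G)
    (v : V) {j : ℤ} (hv : Valid k j (psG G k h + Xv G k v - 1)) :
    phi k j h (Fintype.card V - 1) (em G - dg G v) (tm G - eI G (NG G v)) ≤ P - 1 := by
  obtain ⟨Γ, he, ht⟩ := op_del_vertex G v
  have hlt : Fintype.card {x : V // x ≠ v} < Fintype.card V :=
    Fintype.card_subtype_lt (x := v) (by simp)
  have hcard : (Fintype.card {x : V // x ≠ v} : ℤ) = Fintype.card V - 1 := by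
    have h1 : Fintype.card {x : V // x ≠ v} = Fintype.card V - 1 := by
      simp
    have h2 : 1 ≤ Fintype.card V := Fintype.card_pos_iff.2 ⟨v⟩
    rw [h1]
    push_cast [Nat.cast_sub h2]
    ring
  have hpos : psG Γ k h = psG G k h + Xv G k v - 1 := by
    rw [psG_eq, psG_eq, hcard, he, pos_del]
    rfl
  have h1 := E.small _ Γ h j hlt (by rw [hpos]; exact hv)
  rw [phG_eq, hcard, he, ht] at h1
  exact h1

theorem phi_del_eq {k δ h P : ℤ} {V : Type} [Fintype V] {G : SimpleGraph V} (E : Ext k δ h P G)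
    (v : V) : phi k (δ - 1) h (Fintype.card V - 1) (em G - dg G v) (tm G - eI G (NG G v))
      = P - Yv G k δ h v := by
  rw [phi_del, ← phG_eq, E.val]
  rfl

theorem ext_del1 {k δ h P : ℤ} {V : Type} [Fintype V] {G : SimpleGraph V} (E : Ext k δ h P G)
    (v : V) (h0 : 0 ≤ k - δ + Xv G k v) (h1 : Xv G k v - (Dj k δ - psG G k h) ≤ 1) :
    1 ≤ Yv G k δ h v := by
  have hr := E.hr
  have hδ := E.hδ
  have hD := Dj_succ k (δ - 1)
  rw [show δ - 1 + 1 = δ by ring] at hD
  have hval : Valid k (δ - 1) (psG G k h + Xv G k v - 1) := by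
    refine ⟨by linarith, by linarith, fun _ => ?_⟩
    rw [show δ - 1 + 1 = δ by ring]; linarith
  have h2 := ext_del E v hval
  rw [phi_del_eq E v] at h2
  linarith

theorem ext_del2 {k δ h P : ℤ} {V : Type} [Fintype V] {G : SimpleGraph V} (E : Ext k δ h P G)
    (v : V) (h1 : 1 ≤ Xv G k v - (Dj k δ - psG G k h))
    (h2 : Xv G k v - (Dj k δ - psG G k h) ≤ k - δ + 1) :
    2 - Xv G k v + (Dj k δ - psG G k h) ≤ Yv G k δ h v := by
  have hD := Dj_succ k δ
  have hval : Valid k δ (psG G k h + Xv G k v - 1) := by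
    refine ⟨E.hδ, by linarith, fun _ => by linarith⟩
  have h3 := ext_del E v hval
  have h4 := phi_pred k δ h (Fintype.card V - 1) (em G - dg G v) (tm G - eI G (NG G v))
  rw [phi_del_eq E v, pos_del] at h4
  have h5 : pos k h (Fintype.card V) (em G) = psG G k h := rfl
  have h6 : (Fintype.card V : ℤ) - k - dg G v = Xv G k v := rfl
  rw [h5, h6] at h4
  linarith

end Pool.Agent.Helper7.LS
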